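import Pool.Agent.helper12.BE.Geo
import Pool.Agent.helper9.BE.OAlg

/-!
# Strip geometry: module Chain (MP_be123d)

Long cycles: pumping, exchanging and closing the open path, and the extension of a small multiset
by arbitrary long cycles.
-/

namespace Pool.Agent.helper33.BE

open Pool.Agent.helper9.SV

theorem OT_pump {T : Multiset ℕ} {b q j : ℕ} (h : OT T b q) (hp : Pump j) :
    OT T (b + 3 * j) (q + j) := by
  obtain ⟨hq, hb, hs, H⟩ := h
  obtain ⟨hj, P⟩ := hp
  refine ⟨by omega, by omega, by omega, ?_⟩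
  intro p hr
  have hj1 : j ≠ 1 := by omega
  have hr' := Rel_adv hr q
  obtain ⟨U, V, hlen, hL, hS, hE⟩ := P (adv p q) hr'
  have h0 := H p hr
  have eL : labM p (q + j) + OmL (adv p (q + j)) =
      labM p q + OmL (adv p q) + ((U : Multiset ℤ) + (V : Multiset ℤ)) := by
    rw [labM_add p hq hj1, ← adv_adv, add_assoc, ← hL, add_assoc]
  have eS : sumM p (q + j) + OmS (adv p (q + j)) =
      sumM p q + OmS (adv p q) + ((pathSums ((adv p q).a1 :: U) : Multiset ℤ) +
        (pathSums ((adv p q).a2 :: V) : Multiset ℤ)) := by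
    rw [sumM_add hr hq hj1, ← adv_adv, add_assoc, ← hS, add_assoc]
  rw [eL, eS, ← adv_adv, ← hlen]
  rcases hE with ⟨h1, h2⟩ | ⟨h1, h2⟩
  · exact h0.extend hb U V h1 h2
  · exact (h0.extend hb U V h1 h2).symm

theorem OT_exch {T : Multiset ℕ} {b q a b' k : ℕ} (h : OT T b q) (hx : Exch a b' k) :
    OT (T + {a + b}) b' (q + k) := by
  obtain ⟨hq, hb, hs, H⟩ := h
  obtain ⟨hk, hb', hab, P⟩ := hx
  refine ⟨by omega, hb', ?_, ?_⟩
  · rw [Multiset.sum_add, Multiset.sum_singleton]
    omega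
  intro p hr
  have hk1 : k ≠ 1 := by omega
  have hr' := Rel_adv hr q
  obtain ⟨Z, W, hZ, hW, hW1, hW2, hL, hS⟩ := P (adv p q) hr'
  have h0 := H p hr
  have eL : labM p (q + k) + OmL (adv p (q + k)) =
      labM p q + OmL (adv p q) + ((Z : Multiset ℤ) + (W : Multiset ℤ)) := by
    rw [labM_add p hq hk1, ← adv_adv, add_assoc, ← hL, add_assoc]
  have eS : sumM p (q + k) + OmS (adv p (q + k)) =
      sumM p q + OmS (adv p q) +
        ((pathSums ((adv p q).a2 :: Z ++ [(adv p q).a1]) : Multiset ℤ) +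
          (pathSums W : Multiset ℤ)) := by
    rw [sumM_add hr hq hk1, ← adv_adv, add_assoc, ← hS, add_assoc]
  rw [eL, eS, ← adv_adv, ← hZ, ← hW]
  exact h0.exch hb Z W hW1 hW2

theorem SG_of_close {T R : Multiset ℕ} {b q a : ℕ} (h : OT T b q) (hc : Close a R) :
    SG (T + R + {a + b}) := by
  obtain ⟨hq, hb, hs, H⟩ := h
  obtain ⟨δ, hδ, C⟩ := hc
  have hsum : ((T + R + {a + b} : Multiset ℕ)).sum = 3 * q + (12 + a + R.sum) := by
    rw [Multiset.sum_add, Multiset.sum_add, Multiset.sum_singleton]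
    omega
  refine ⟨δ, ?_, ?_⟩
  · rw [hsum]
    clear C H
    generalize R.sum = r at hδ ⊢
    omega
  intro m h j hj hh hn
  rw [hsum] at hn
  have hjq : j + q ≠ 1 := by omega
  obtain ⟨hv, cs, Z, hcs, hZ, hL, hS⟩ := C m h (j + q) hjq hh (by
    clear C H
    generalize R.sum = r at hn ⊢
    omega)
  refine ⟨VE_mono hj hq hv, ?_⟩
  rw [labE_split hj hq hv, sumE_split hj hq hv, ← hL, ← hS]
  have h0 := H (adv (p0 h m) j) (Rel_adv (Rel_p0 h m) j)
  rw [adv_adv] at h0
  have h1 := h0.close hb Z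
  have h2 : Fill (cs.flatten : Multiset ℤ) ((cs.map cycSums).flatten : Multiset ℤ) R :=
    ⟨cs, hcs, rfl, rfl⟩
  have h3 := Fill.add h1 h2
  rw [hZ] at h3
  have e1 : labM (adv (p0 h m) j) q + (OmL (adv (p0 h m) (j + q)) +
      (((cs.flatten : List ℤ) : Multiset ℤ) + (Z : Multiset ℤ))) =
      labM (adv (p0 h m) j) q + OmL (adv (p0 h m) (j + q)) + (Z : Multiset ℤ) +
        ((cs.flatten : List ℤ) : Multiset ℤ) := by
    abel
  have e2 : sumM (adv (p0 h m) j) q + (OmS (adv (p0 h m) (j + q)) +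
      ((((cs.map cycSums).flatten : List ℤ) : Multiset ℤ) +
        (pathSums ((adv (p0 h m) (j + q)).a2 :: Z ++ [(adv (p0 h m) (j + q)).a1]) :
          Multiset ℤ))) =
      sumM (adv (p0 h m) j) q + OmS (adv (p0 h m) (j + q)) +
        (pathSums ((adv (p0 h m) (j + q)).a2 :: Z ++ [(adv (p0 h m) (j + q)).a1]) :
          Multiset ℤ) + (((cs.map cycSums).flatten : List ℤ) : Multiset ℤ) := by
    abel
  have e3 : T + R + {a + b} = T + {a + b} + R := by abel
  rw [e1, e2, e3]
  exact h3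

/-- open fillings with at most `B` labels on the path -/
def Q (B : ℕ) (T : Multiset ℕ) : Prop := ∃ b q : ℕ, b ≤ B ∧ OT T b q

/-- the list of moves proved by explicit pieces -/
structure Moves : Prop where
  p3 : Pump 3
  p4 : Pump 4
  p5 : Pump 5
  x7 : Exch 7 8 5
  x8 : Exch 8 7 5
  x9 : Exch 9 6 5
  x10 : Exch 10 8 6
  x11 : Exch 11 7 6
  x12 : Exch 12 6 6
  x13 : Exch 13 5 6
  x14 : Exch 14 4 6
  x15 : Exch 15 3 6

/-- every closing with `10 ≤ a ≤ 18` -/
def Closes (R : Multiset ℕ) : Prop := ∀ a : ℕ, 10 ≤ a → a ≤ 18 → Close a R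

private theorem pumps (M : Moves) : ∀ n : ℕ, 3 ≤ n → ∀ {T : Multiset ℕ} {b q : ℕ}, OT T b q →
    OT T (b + 3 * n) (q + n) := by
  intro n
  induction n using Nat.strong_induction_on with
  | _ n ih =>
    intro hn T b q h
    rcases Nat.lt_or_ge n 6 with h6 | h6
    · have : n = 3 ∨ n = 4 ∨ n = 5 := by omega
      rcases this with rfl | rfl | rfl
      · exact OT_pump h M.p3
      · exact OT_pump h M.p4
      · exact OT_pump h M.p5
    · have h1 := ih (n - 3) (by omega) (by omega) h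
      have h2 := OT_pump h1 M.p3
      have e1 : b + 3 * (n - 3) + 3 * 3 = b + 3 * n := by omega
      have e2 : q + (n - 3) + 3 = q + n := by omega
      rw [e1, e2] at h2
      exact h2

private theorem Q_of_exch {T : Multiset ℕ} {b q a b' k l : ℕ} (h : OT T b q) (hx : Exch a b' k)
    (hb' : b' ≤ 8) (hl : a + b = l) : Q 8 (T + {l}) := by
  subst hl
  exact ⟨b', q + k, hb', OT_exch h hx⟩

theorem Q_step_of_le {T : Multiset ℕ} {l b q : ℕ} (M : Moves) (h : OT T b q)
    (hl : b + 7 ≤ l) : Q 8 (T + {l}) := by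
  obtain ⟨t, rfl⟩ : ∃ t, l = b + t := ⟨l - b, by omega⟩
  have ht : 7 ≤ t := by omega
  rcases Nat.lt_or_ge t 16 with h16 | h16
  · have : t = 7 ∨ t = 8 ∨ t = 9 ∨ t = 10 ∨ t = 11 ∨ t = 12 ∨ t = 13 ∨ t = 14 ∨ t = 15 := by
      omega
    rcases this with rfl | rfl | rfl | rfl | rfl | rfl | rfl | rfl | rfl
    · exact Q_of_exch h M.x7 (by norm_num) (by omega)
    · exact Q_of_exch h M.x8 (by norm_num) (by omega)
    · exact Q_of_exch h M.x9 (by norm_num) (by omega)
    · exact Q_of_exch h M.x10 (by norm_num) (by omega)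
    · exact Q_of_exch h M.x11 (by norm_num) (by omega)
    · exact Q_of_exch h M.x12 (by norm_num) (by omega)
    · exact Q_of_exch h M.x13 (by norm_num) (by omega)
    · exact Q_of_exch h M.x14 (by norm_num) (by omega)
    · exact Q_of_exch h M.x15 (by norm_num) (by omega)
  · have h3 : t % 3 = 0 ∨ t % 3 = 1 ∨ t % 3 = 2 := by omega
    rcases h3 with h3 | h3 | h3
    · have h1 := pumps M ((t - 9) / 3) (by omega) h
      exact Q_of_exch h1 M.x9 (by norm_num) (by omega)
    · have h1 := pumps M ((t - 7) / 3) (by omega) h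
      exact Q_of_exch h1 M.x7 (by norm_num) (by omega)
    · have h1 := pumps M ((t - 8) / 3) (by omega) h
      exact Q_of_exch h1 M.x8 (by norm_num) (by omega)

theorem Q_step {T : Multiset ℕ} {l : ℕ} (M : Moves) (h : Q 11 T) (hl : 18 ≤ l) :
    Q 8 (T + {l}) := by
  obtain ⟨b, q, hb, ho⟩ := h
  exact Q_step_of_le M ho (by omega)

theorem SG_of_OT {T R : Multiset ℕ} {l b q : ℕ} (M : Moves) (hc : Closes R) (h : OT T b q)
    (hl : b + 10 ≤ l) : SG (T + R + {l}) := by
  obtain ⟨t, rfl⟩ : ∃ t, l = b + t := ⟨l - b, by omega⟩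
  have ht : 10 ≤ t := by omega
  rcases Nat.lt_or_ge t 19 with h19 | h19
  · have h1 := SG_of_close h (hc t ht (by omega))
    rwa [add_comm t b] at h1
  · have key : ∀ a : ℕ, 10 ≤ a → a ≤ 12 → t % 3 = a % 3 → SG (T + R + {b + t}) := by
      intro a ha1 ha2 ha3
      have h1 := pumps M ((t - a) / 3) (by omega) h
      have h2 := SG_of_close h1 (hc a ha1 (by omega))
      have e : a + (b + 3 * ((t - a) / 3)) = b + t := by omega
      rwa [e] at h2
    have h3 : t % 3 = 0 ∨ t % 3 = 1 ∨ t % 3 = 2 := by omega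
    rcases h3 with h3 | h3 | h3
    · exact key 12 (by norm_num) (by norm_num) h3
    · exact key 10 (by norm_num) (by norm_num) h3
    · exact key 11 (by norm_num) (by norm_num) h3

/-- all extensions of `T` by long cycles are fine -/
def LG (T : Multiset ℕ) : Prop :=
  ∀ L : Multiset ℕ, L ≠ 0 → (∀ x ∈ L, 18 ≤ x) → SG (T + L)

theorem LG_of_Q5 {T R : Multiset ℕ} (M : Moves) (hc : Closes R) (h : Q 8 T) :
    LG (T + R) := by
  intro L
  induction L using Multiset.induction_on generalizing T with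
  | empty =>
    intro h0 _
    exact absurd rfl h0
  | cons l L ih =>
    intro _ hL
    have hl : 18 ≤ l := hL l (Multiset.mem_cons_self l L)
    have hL' : ∀ x ∈ L, 18 ≤ x := fun x hx => hL x (Multiset.mem_cons_of_mem hx)
    by_cases h0 : L = 0
    · subst h0
      obtain ⟨b, q, hb, ho⟩ := h
      have h1 := SG_of_OT M hc ho (l := l) (by omega)
      have e : T + R + (l ::ₘ 0) = T + R + {l} := rfl
      rw [e]
      exact h1
    · have h11 : Q 11 T := by
        obtain ⟨b, q, hb, ho⟩ := h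
        exact ⟨b, q, by omega, ho⟩
      have h1 := ih (Q_step M h11 hl) h0 hL'
      have e : T + R + (l ::ₘ L) = T + {l} + R + L := by
        rw [← Multiset.singleton_add]
        abel
      rw [e]
      exact h1

theorem LG_of_Q {T : Multiset ℕ} (M : Moves) (hc : Closes 0) (h : Q 8 T) : LG T := by
  have h1 := LG_of_Q5 M hc h
  rwa [add_zero] at h1

theorem LG_of_all {T : Multiset ℕ} (M : Moves) (hc : Closes 0)
    (h : ∀ l, 18 ≤ l → Q 8 (T + {l}) ∧ SG (T + {l})) : LG T := by
  intro L h0 hL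
  obtain ⟨l, hl⟩ := Multiset.exists_mem_of_ne_zero h0
  obtain ⟨L', rfl⟩ := Multiset.exists_cons_of_mem hl
  obtain ⟨h1, h2⟩ := h l (hL l hl)
  have e : T + (l ::ₘ L') = T + {l} + L' := by
    rw [← Multiset.singleton_add]
    abel
  rw [e]
  by_cases h3 : L' = 0
  · subst h3
    rw [add_zero]
    exact h2
  · exact LG_of_Q M hc h1 L' h3 fun x hx => hL x (Multiset.mem_cons_of_mem hx)

end Pool.Agent.helper33.BE
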