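import Pool.Agent.helper33.BE.Defs

/-!
# Strip geometry: module Geo (MP_be123d)

Additivity of the strip regions and the passage from `SG` to `Good`.
-/

namespace Pool.Agent.helper33.BE

open Pool.Agent.helper9.SV

theorem I_add {x y z : ℤ} (h1 : x ≤ y) (h2 : y ≤ z) : I x y + I y z = I x z := by
  unfold I
  have hd : Disjoint (Finset.Ico x y) (Finset.Ico y z) := Finset.Ico_disjoint_Ico_consecutive x y z
  have h : (Finset.Ico x y).disjUnion (Finset.Ico y z) hd = Finset.Ico x z := by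
    rw [Finset.disjUnion_eq_union]
    exact Finset.Ico_union_Ico_eq_Ico h1 h2
  have := congrArg Finset.val h
  rw [← this]
  rfl

private theorem I_self (x : ℤ) : I x x = 0 := by
  unfold I
  simp

private theorem I_add' {x y y' z z' : ℤ} (hy : y' = y) (hz : z' = z) (h1 : x ≤ y) (h2 : y ≤ z) :
    I x y + I y' z' = I x z := by
  subst hy; subst hz
  exact I_add h1 h2

private theorem I_add'' {x x' y y' z : ℤ} (hy : y' = y) (hx : x' = x) (h1 : x ≤ y) (h2 : y ≤ z) :
    I y z + I x' y' = I x z := by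
  subst hy; subst hx
  rw [add_comm]
  exact I_add h1 h2

theorem Rel_p0 (h m : ℤ) : (p0 h m).Rel := by
  unfold Par.Rel p0
  simp only
  ring

theorem Rel_adv {p : Par} (hp : p.Rel) (j : ℕ) : (adv p j).Rel := by
  unfold Par.Rel at *
  unfold adv
  split_ifs with h
  · simp only
    linarith
  · simp only
    linarith

theorem adv_zero (p : Par) : adv p 0 = p := by
  unfold adv hf
  simp

private theorem adv_even (p : Par) (x : ℕ) :
    adv p (2 * x) = ⟨p.a1 + x, p.b1 + x, p.a2 + x, p.b2 + x, p.c - 2 * x⟩ := by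
  unfold adv hf
  have h1 : 2 * x % 2 = 0 := by omega
  have h2 : 2 * x / 2 = x := by omega
  rw [if_pos h1, h2]
  push_cast
  rfl

private theorem adv_odd (p : Par) (x : ℕ) :
    adv p (2 * x + 1) =
      ⟨p.a2 + x + 1, p.b2 + x + 1, p.a1 + x, p.b1 + x, p.c - (2 * x + 1)⟩ := by
  unfold adv hf
  have h1 : ¬ ((2 * x + 1) % 2 = 0) := by omega
  have h2 : (2 * x + 1) / 2 = x := by omega
  rw [if_neg h1, h2]
  push_cast
  rfl

private theorem hf_even (x : ℕ) : hf (2 * x) = x := by unfold hf; congr 1; omega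
private theorem hf_odd (x : ℕ) : hf (2 * x + 1) = x := by unfold hf; congr 1; omega
private theorem od_even (x : ℕ) : od (2 * x) = 0 := by
  unfold od
  have : 2 * x % 2 = 0 := by omega
  rw [this]; rfl
private theorem od_odd (x : ℕ) : od (2 * x + 1) = 1 := by
  unfold od
  have : (2 * x + 1) % 2 = 1 := by omega
  rw [this]; rfl

private theorem par_ext {p q : Par} (h1 : p.a1 = q.a1) (h2 : p.b1 = q.b1) (h3 : p.a2 = q.a2)
    (h4 : p.b2 = q.b2) (h5 : p.c = q.c) : p = q := by
  cases p; cases q; simp only at *; subst h1; subst h2; subst h3; subst h4; subst h5; rfl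

private theorem parity (j : ℕ) : (∃ x, j = 2 * x) ∨ ∃ x, j = 2 * x + 1 := by
  rcases Nat.even_or_odd' j with ⟨x, h | h⟩
  · exact Or.inl ⟨x, h⟩
  · exact Or.inr ⟨x, h⟩

theorem adv_adv (p : Par) (j k : ℕ) : adv (adv p j) k = adv p (j + k) := by
  rcases parity j with ⟨x, rfl⟩ | ⟨x, rfl⟩ <;> rcases parity k with ⟨y, rfl⟩ | ⟨y, rfl⟩
  · have e : 2 * x + 2 * y = 2 * (x + y) := by ring
    rw [e, adv_even, adv_even, adv_even]
    apply par_ext <;> (simp only; push_cast; ring)
  · have e : 2 * x + (2 * y + 1) = 2 * (x + y) + 1 := by ring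
    rw [e, adv_even, adv_odd, adv_odd]
    apply par_ext <;> (simp only; push_cast; ring)
  · have e : 2 * x + 1 + 2 * y = 2 * (x + y) + 1 := by ring
    rw [e, adv_odd, adv_even, adv_odd]
    apply par_ext <;> (simp only; push_cast; ring)
  · have e : 2 * x + 1 + (2 * y + 1) = 2 * (x + y + 1) := by ring
    rw [e, adv_odd, adv_odd, adv_even]
    apply par_ext <;> (simp only; push_cast; ring)

private theorem five_even {A1 A2 A3 A4 A5 B1 B2 B3 B4 B5 C1 C2 C3 C4 C5 : Multiset ℤ}
    (h1 : A1 + B1 = C1) (h2 : A2 + B2 = C2) (h3 : A3 + B3 = C3) (h4 : A4 + B4 = C4)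
    (h5 : A5 + B5 = C5) :
    C1 + C2 + C3 + C4 + C5 = (A1 + A2 + A3 + A4 + A5) + (B1 + B2 + B3 + B4 + B5) := by
  subst h1; subst h2; subst h3; subst h4; subst h5
  abel

private theorem five_lab {A1 A2 A3 A4 A5 B1 B2 B3 B4 B5 C1 C2 C3 C4 C5 : Multiset ℤ}
    (h1 : A1 + B1 = C1) (h2 : A2 + B2 = C2) (h3 : A3 + B3 = C3) (h4 : A4 + B4 = C4)
    (h5 : A5 + B5 = C5) :
    C1 + C2 + C3 + C4 + C5 = (A1 + A2 + A3 + A4 + A5) + (B3 + B4 + B1 + B2 + B5) := by
  subst h1; subst h2; subst h3; subst h4; subst h5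
  abel

private theorem five_sum {A1 A2 A3 A4 A5 B1 B2 B3 B4 B5 C1 C2 C3 C4 C5 : Multiset ℤ}
    (h1 : A1 + B1 = C1) (h2 : A2 + B2 = C2) (h3 : A3 + B3 = C3) (h4 : A4 + B4 = C4)
    (h5 : A5 + B5 = C5) :
    C1 + C2 + C3 + C4 + C5 = (A1 + A2 + A3 + A4 + A5) + (B1 + B4 + B5 + B2 + B3) := by
  subst h1; subst h2; subst h3; subst h4; subst h5
  abel

theorem labM_add (p : Par) {j k : ℕ} (hj : j ≠ 1) (hk : k ≠ 1) :
    labM p (j + k) = labM p j + labM (adv p j) k := by
  rcases parity j with ⟨x, rfl⟩ | ⟨x, rfl⟩ <;> rcases parity k with ⟨y, rfl⟩ | ⟨y, rfl⟩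
  · have e : 2 * x + 2 * y = 2 * (x + y) := by ring
    unfold labM
    rw [e, adv_even, hf_even, hf_even, hf_even, od_even, od_even, od_even]
    simp only
    apply five_even <;> first
      | (apply I_add' <;> (push_cast; omega))
      | (apply I_add'' <;> (push_cast; omega))
  · have e : 2 * x + (2 * y + 1) = 2 * (x + y) + 1 := by ring
    unfold labM
    rw [e, adv_even, hf_even, hf_odd, hf_odd, od_even, od_odd, od_odd]
    simp only
    apply five_even <;> first
      | (apply I_add' <;> (push_cast; omega))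
      | (apply I_add'' <;> (push_cast; omega))
  · have e : 2 * x + 1 + 2 * y = 2 * (x + y) + 1 := by ring
    unfold labM
    rw [e, adv_odd, hf_odd, hf_even, hf_odd, od_odd, od_even, od_odd]
    simp only
    apply five_lab <;> first
      | (apply I_add' <;> (push_cast; omega))
      | (apply I_add'' <;> (push_cast; omega))
  · have e : 2 * x + 1 + (2 * y + 1) = 2 * (x + y + 1) := by ring
    unfold labM
    rw [e, adv_odd, hf_odd, hf_odd, hf_even, od_odd, od_odd, od_even]
    simp only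
    apply five_lab <;> first
      | (apply I_add' <;> (push_cast; omega))
      | (apply I_add'' <;> (push_cast; omega))

theorem sumM_add {p : Par} (hp : p.Rel) {j k : ℕ} (hj : j ≠ 1) (hk : k ≠ 1) :
    sumM p (j + k) = sumM p j + sumM (adv p j) k := by
  unfold Par.Rel at hp
  rcases parity j with ⟨x, rfl⟩ | ⟨x, rfl⟩ <;> rcases parity k with ⟨y, rfl⟩ | ⟨y, rfl⟩
  · have e : 2 * x + 2 * y = 2 * (x + y) := by ring
    unfold sumM
    rw [e, adv_even, hf_even, hf_even, hf_even, od_even, od_even, od_even]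
    simp only
    apply five_even <;> first
      | (apply I_add' <;> (push_cast; omega))
      | (apply I_add'' <;> (push_cast; omega))
  · have e : 2 * x + (2 * y + 1) = 2 * (x + y) + 1 := by ring
    unfold sumM
    rw [e, adv_even, hf_even, hf_odd, hf_odd, od_even, od_odd, od_odd]
    simp only
    apply five_even <;> first
      | (apply I_add' <;> (push_cast; omega))
      | (apply I_add'' <;> (push_cast; omega))
  · have e : 2 * x + 1 + 2 * y = 2 * (x + y) + 1 := by ring
    unfold sumM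
    rw [e, adv_odd, hf_odd, hf_even, hf_odd, od_odd, od_even, od_odd]
    simp only
    apply five_sum <;> first
      | (apply I_add' <;> (push_cast; omega))
      | (apply I_add'' <;> (push_cast; omega))
  · have e : 2 * x + 1 + (2 * y + 1) = 2 * (x + y + 1) := by ring
    unfold sumM
    rw [e, adv_odd, hf_odd, hf_odd, hf_even, od_odd, od_odd, od_even]
    simp only
    apply five_sum <;> first
      | (apply I_add' <;> (push_cast; omega))
      | (apply I_add'' <;> (push_cast; omega))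

theorem VE_mono {h m : ℤ} {j k : ℕ} (hj : j ≠ 1) (hk : k ≠ 1) (hv : VE h m (j + k)) :
    VE h m j := by
  have _ := hj
  unfold VE hf od at *
  push_cast at *
  omega

private theorem four_lab {A1 A2 A3 A4 A5 B1 B2 B3 B4 C1 C2 C3 C4 : Multiset ℤ}
    (h1 : C1 = A1 + B1) (h2 : C2 = A3 + B2) (h3 : C3 = A4 + B3) (h4 : C4 = A2 + B4 + A5) :
    C1 + C2 + C3 + C4 = (A1 + A2 + A3 + A4 + A5) + (B1 + B2 + B3 + B4) := by
  subst h1; subst h2; subst h3; subst h4
  abel

private theorem four_lab' {A1 A2 A3 A4 A5 B1 B2 B3 B4 C1 C2 C3 C4 : Multiset ℤ}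
    (h1 : C1 = A3 + B1) (h2 : C2 = A1 + B2) (h3 : C3 = A2 + B3) (h4 : C4 = A4 + B4 + A5) :
    C1 + C2 + C3 + C4 = (A1 + A2 + A3 + A4 + A5) + (B1 + B2 + B3 + B4) := by
  subst h1; subst h2; subst h3; subst h4
  abel

private theorem I_spl' {x x' y y' z z' : ℤ} (hx : x' = x) (hy : y' = y) (hz : z' = z)
    (h1 : x ≤ y) (h2 : y ≤ z) : I x' z' = I x y + I y' z := by
  subst hx; subst hy; subst hz
  exact (I_add h1 h2).symm

private theorem I_spl3 {x x' y y' z z' w w' : ℤ} (hx : x' = x) (hy : y' = y) (hz : z' = z)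
    (hw : w' = w) (h1 : x ≤ y) (h2 : y ≤ z) (h3 : z ≤ w) :
    I x' w' = I x y + I y' z' + I z w := by
  subst hx; subst hy; subst hz; subst hw
  rw [I_add h1 h2, I_add (h1.trans h2) h3]

theorem labE_split {h m : ℤ} {j k : ℕ} (hj : j ≠ 1) (hk : k ≠ 1) (hv : VE h m (j + k)) :
    labE h m j = labM (adv (p0 h m) j) k + labE h m (j + k) := by
  rcases parity j with ⟨x, rfl⟩ | ⟨x, rfl⟩ <;> rcases parity k with ⟨y, rfl⟩ | ⟨y, rfl⟩
  · have e : 2 * x + 2 * y = 2 * (x + y) := by ring
    rw [e] at hv ⊢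
    unfold VE at hv
    unfold labE labM
    rw [hf_even, od_even] at hv
    rw [adv_even, hf_even, hf_even, hf_even, od_even, od_even, od_even]
    unfold p0
    simp only
    push_cast at hv ⊢
    apply four_lab
    · apply I_spl' <;> omega
    · apply I_spl' <;> omega
    · apply I_spl' <;> omega
    · apply I_spl3 <;> omega
  · have e : 2 * x + (2 * y + 1) = 2 * (x + y) + 1 := by ring
    rw [e] at hv ⊢
    unfold VE at hv
    unfold labE labM
    rw [hf_odd, od_odd] at hv
    rw [adv_even, hf_even, hf_odd, hf_odd, od_even, od_odd, od_odd]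
    unfold p0
    simp only
    push_cast at hv ⊢
    apply four_lab
    · apply I_spl' <;> omega
    · apply I_spl' <;> omega
    · apply I_spl' <;> omega
    · apply I_spl3 <;> omega
  · have e : 2 * x + 1 + 2 * y = 2 * (x + y) + 1 := by ring
    rw [e] at hv ⊢
    unfold VE at hv
    unfold labE labM
    rw [hf_odd, od_odd] at hv
    rw [adv_odd, hf_odd, hf_even, hf_odd, od_odd, od_even, od_odd]
    unfold p0
    simp only
    push_cast at hv ⊢
    apply four_lab'
    · apply I_spl' <;> omega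
    · apply I_spl' <;> omega
    · apply I_spl' <;> omega
    · apply I_spl3 <;> omega
  · have e : 2 * x + 1 + (2 * y + 1) = 2 * (x + y + 1) := by ring
    rw [e] at hv ⊢
    unfold VE at hv
    unfold labE labM
    rw [hf_even, od_even] at hv
    rw [adv_odd, hf_odd, hf_odd, hf_even, od_odd, od_odd, od_even]
    unfold p0
    simp only
    push_cast at hv ⊢
    apply four_lab'
    · apply I_spl' <;> omega
    · apply I_spl' <;> omega
    · apply I_spl' <;> omega
    · apply I_spl3 <;> omega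

private theorem four_sum {A1 A2 A3 A4 A5 B1 B2 B3 B4 C1 C2 C3 C4 : Multiset ℤ}
    (h1 : C1 = A1 + B1 + A2) (h2 : C2 = B2 + A4) (h3 : C3 = B3 + A5) (h4 : C4 = B4 + A3) :
    C1 + C2 + C3 + C4 = (A1 + A2 + A3 + A4 + A5) + (B1 + B2 + B3 + B4) := by
  subst h1; subst h2; subst h3; subst h4
  abel

private theorem four_sum' {A1 A2 A3 A4 A5 B1 B2 B3 B4 C1 C2 C3 C4 : Multiset ℤ}
    (h1 : C1 = A1 + B1 + A4) (h2 : C2 = B2 + A2) (h3 : C3 = B3 + A3) (h4 : C4 = B4 + A5) :
    C1 + C2 + C3 + C4 = (A1 + A2 + A3 + A4 + A5) + (B1 + B2 + B3 + B4) := by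
  subst h1; subst h2; subst h3; subst h4
  abel

theorem sumE_split {h m : ℤ} {j k : ℕ} (hj : j ≠ 1) (hk : k ≠ 1) (hv : VE h m (j + k)) :
    sumE h m j = sumM (adv (p0 h m) j) k + sumE h m (j + k) := by
  rcases parity j with ⟨x, rfl⟩ | ⟨x, rfl⟩ <;> rcases parity k with ⟨y, rfl⟩ | ⟨y, rfl⟩
  · have e : 2 * x + 2 * y = 2 * (x + y) := by ring
    rw [e] at hv ⊢
    unfold VE at hv
    unfold sumE sumM
    rw [hf_even, od_even] at hv
    rw [adv_even, hf_even, hf_even, hf_even, od_even, od_even, od_even]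
    unfold p0
    simp only
    push_cast at hv ⊢
    apply four_sum
    · apply I_spl3 <;> omega
    · apply I_spl' <;> omega
    · apply I_spl' <;> omega
    · apply I_spl' <;> omega
  · have e : 2 * x + (2 * y + 1) = 2 * (x + y) + 1 := by ring
    rw [e] at hv ⊢
    unfold VE at hv
    unfold sumE sumM
    rw [hf_odd, od_odd] at hv
    rw [adv_even, hf_even, hf_odd, hf_odd, od_even, od_odd, od_odd]
    unfold p0
    simp only
    push_cast at hv ⊢
    apply four_sum
    · apply I_spl3 <;> omega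
    · apply I_spl' <;> omega
    · apply I_spl' <;> omega
    · apply I_spl' <;> omega
  · have e : 2 * x + 1 + 2 * y = 2 * (x + y) + 1 := by ring
    rw [e] at hv ⊢
    unfold VE at hv
    unfold sumE sumM
    rw [hf_odd, od_odd] at hv
    rw [adv_odd, hf_odd, hf_even, hf_odd, od_odd, od_even, od_odd]
    unfold p0
    simp only
    push_cast at hv ⊢
    apply four_sum'
    · apply I_spl3 <;> omega
    · apply I_spl' <;> omega
    · apply I_spl' <;> omega
    · apply I_spl' <;> omega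
  · have e : 2 * x + 1 + (2 * y + 1) = 2 * (x + y + 1) := by ring
    rw [e] at hv ⊢
    unfold VE at hv
    unfold sumE sumM
    rw [hf_even, od_even] at hv
    rw [adv_odd, hf_odd, hf_odd, hf_even, od_odd, od_odd, od_even]
    unfold p0
    simp only
    push_cast at hv ⊢
    apply four_sum'
    · apply I_spl3 <;> omega
    · apply I_spl' <;> omega
    · apply I_spl' <;> omega
    · apply I_spl' <;> omega

private theorem I_Icc (h : ℤ) : I (-h) (h + 1) = (Finset.Icc (-h) h).val := by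
  have e : Finset.Ico (-h) (h + 1) = Finset.Icc (-h) h := by
    ext x
    simp only [Finset.mem_Ico, Finset.mem_Icc]
    omega
  unfold I
  rw [e]

private theorem four_join {x1 y1 x2 y2 x3 y3 x4 y4 : ℤ} (e2 : y1 = x2) (e3 : y2 = x3)
    (e4 : y3 = x4) (h1 : x1 ≤ y1) (h2 : x2 ≤ y2) (h3 : x3 ≤ y3) (h4 : x4 ≤ y4) :
    I x1 y1 + I x2 y2 + I x3 y3 + I x4 y4 = I x1 y4 := by
  subst e2; subst e3; subst e4
  rw [I_add h1 h2, I_add (h1.trans h2) h3, I_add ((h1.trans h2).trans h3) h4]

private theorem I_eq {x x' y y' : ℤ} (h1 : x = x') (h2 : y = y') : I x y = I x' y' := by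
  rw [h1, h2]

theorem labE_zero {h m : ℤ} (hv : VE h m 0) : labE h m 0 = (Finset.Icc (-h) h).val := by
  rw [← I_Icc]
  unfold VE at hv
  unfold labE
  have e1 : hf 0 = 0 := by simp [hf]
  have e2 : od 0 = 0 := by simp [od]
  rw [e1, e2] at hv ⊢
  simp only [Nat.cast_zero] at hv ⊢
  have := four_join (x1 := -h + 0 - 0) (y1 := -h + m - 1) (x2 := -h + m - 1 + 0 + 2 * 0)
    (y2 := -m) (x3 := -m + 0 + 2 * 0) (y3 := 2) (x4 := 2 + 0 - 0) (y4 := h - 0 + 1)
    (by ring) (by ring) (by ring) (by omega) (by omega) (by omega) (by omega)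
  exact this.trans (I_eq (by ring) (by ring))

theorem sumE_zero {h m : ℤ} (hv : VE h m 0) : sumE h m 0 = (Finset.Icc (-h) h).val := by
  rw [← I_Icc]
  unfold VE at hv
  unfold sumE
  have e1 : hf 0 = 0 := by simp [hf]
  have e2 : od 0 = 0 := by simp [od]
  rw [e1, e2] at hv ⊢
  simp only [Nat.cast_zero] at hv ⊢
  have := four_join (x1 := -h + 0) (y1 := -1 - 0 + 0) (x2 := -1) (y2 := m + 1 - 0 - 2 * 0)
    (x3 := m + 1) (y3 := h - m + 2 - 0 - 2 * 0) (x4 := h - m + 2) (y4 := h + 1 - 0 + 0)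
    (by ring) (by ring) (by ring) (by omega) (by omega) (by omega) (by omega)
  exact this.trans (I_eq (by ring) (by ring))

private theorem I_empty {x y : ℤ} (h : x = y) : I x y = 0 := by
  subst h
  exact I_self x

private theorem four_zero {x1 y1 x2 y2 x3 y3 x4 y4 : ℤ} (h1 : x1 = y1) (h2 : x2 = y2)
    (h3 : x3 = y3) (h4 : x4 = y4) : I x1 y1 + I x2 y2 + I x3 y3 + I x4 y4 = 0 := by
  rw [I_empty h1, I_empty h2, I_empty h3, I_empty h4]
  rfl

theorem SG_zero : SG 0 := by
  refine ⟨1, by simp, ?_⟩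
  intro m h j hj hh hn
  simp only [Multiset.sum_zero, Nat.cast_zero, add_zero] at hn
  have hjm : (j : ℤ) = 2 * m + 1 := by omega
  obtain ⟨x, hx⟩ : ∃ x : ℕ, j = 2 * x + 1 := ⟨j / 2, by omega⟩
  subst hx
  have hxm : (x : ℤ) = m := by push_cast at hjm; omega
  have hx1 : 1 ≤ x := by omega
  subst hxm
  subst hh
  refine ⟨?_, ?_⟩
  · unfold VE
    rw [hf_odd, od_odd]
    push_cast
    omega
  · have e1 : labE (3 * (x : ℤ) + 1) x (2 * x + 1) = 0 := by
      unfold labE
      rw [hf_odd, od_odd]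
      apply four_zero <;> (push_cast; ring)
    have e2 : sumE (3 * (x : ℤ) + 1) x (2 * x + 1) = 0 := by
      unfold sumE
      rw [hf_odd, od_odd]
      apply four_zero <;> (push_cast; ring)
    rw [e1, e2]
    exact ⟨[], rfl, rfl, rfl⟩

private theorem Fill_add {A A' S S' : Multiset ℤ} {T T' : Multiset ℕ} (h : Fill A S T)
    (h' : Fill A' S' T') : Fill (A + A') (S + S') (T + T') := by
  obtain ⟨cs, h1, h2, h3⟩ := h
  obtain ⟨cs', h1', h2', h3'⟩ := h'
  refine ⟨cs ++ cs', ?_, ?_, ?_⟩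
  · rw [List.map_append, ← Multiset.coe_add, h1, h1']
  · rw [List.flatten_append, ← Multiset.coe_add, h2, h2']
  · rw [List.map_append, List.flatten_append, ← Multiset.coe_add, h3, h3']

theorem SG_add_tile {S nu : Multiset ℕ} {k : ℕ} (hS : SG S) (ht : Tile nu k) : SG (S + nu) := by
  obtain ⟨δ, hδ, H⟩ := hS
  obtain ⟨hk, hs, ht⟩ := ht
  refine ⟨δ, ?_, ?_⟩
  · rw [Multiset.sum_add, hs]
    clear H
    generalize S.sum = s at hδ ⊢
    omega
  · intro m h j hj hh hn
    rw [Multiset.sum_add, hs] at hn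
    obtain ⟨hv, hf⟩ := H m h (j + k) (by omega) hh (by
      clear H
      generalize S.sum = s at hn ⊢
      omega)
    have hk1 : k ≠ 1 := by omega
    refine ⟨VE_mono hj hk1 hv, ?_⟩
    have hT := ht (adv (p0 h m) j) (Rel_adv (Rel_p0 h m) j)
    rw [labE_split hj hk1 hv, sumE_split hj hk1 hv, add_comm S nu]
    exact Fill_add hT hf

theorem SG_good {S : Multiset ℕ} (hS : SG S) (ho : S.sum % 2 = 1) : Good S := by
  obtain ⟨δ, hδ, H⟩ := hS
  obtain ⟨h, hh⟩ : ∃ h : ℕ, S.sum = 2 * h + 1 := ⟨S.sum / 2, by omega⟩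
  have hd : (3 : ℤ) ∣ (h : ℤ) - δ := by
    rw [hh] at hδ
    omega
  obtain ⟨m, hm⟩ := hd
  obtain ⟨hv, hf⟩ := H m h 0 (by decide) (by linarith) (by rw [hh]; push_cast; ring)
  refine ⟨h, hh, ?_⟩
  rw [labE_zero hv, sumE_zero hv] at hf
  exact hf

end Pool.Agent.helper33.BE
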