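import Pool.Agent.helper12.BE.SpecD
import Pool.Agent.helper12.BE.Chain
import Pool.Agent.helper33.BE.Link
import Pool.Agent.helper33.BE.DM

/-!
# Long cycles for every tile-free multiset which passes the test `openB`
-/

namespace Pool.Agent.helper33.BE

open Pool.Agent.helper9.SV

theorem moves : Moves :=
  ⟨pump_3, pump_4, pump_5, exch_7, exch_8, exch_9, exch_10, exch_11, exch_12, exch_13,
    exch_14, exch_15⟩

theorem closes_0 : Closes 0 := by
  intro a h1 h2
  have h : a = 10 ∨ a = 11 ∨ a = 12 ∨ a = 13 ∨ a = 14 ∨ a = 15 ∨ a = 16 ∨ a = 17 ∨ a = 18 := by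
    omega
  rcases h with rfl | rfl | rfl | rfl | rfl | rfl | rfl | rfl | rfl
  · exact close_0_10
  · exact close_0_11
  · exact close_0_12
  · exact close_0_13
  · exact close_0_14
  · exact close_0_15
  · exact close_0_16
  · exact close_0_17
  · exact close_0_18

theorem closes_5 : Closes (([5] : List ℕ) : Multiset ℕ) := by
  intro a h1 h2
  have h : a = 10 ∨ a = 11 ∨ a = 12 ∨ a = 13 ∨ a = 14 ∨ a = 15 ∨ a = 16 ∨ a = 17 ∨ a = 18 := by
    omega
  rcases h with rfl | rfl | rfl | rfl | rfl | rfl | rfl | rfl | rfl
  · exact close_5_10
  · exact close_5_11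
  · exact close_5_12
  · exact close_5_13
  · exact close_5_14
  · exact close_5_15
  · exact close_5_16
  · exact close_5_17
  · exact close_5_18

theorem closes_55 : Closes (([5, 5] : List ℕ) : Multiset ℕ) := by
  intro a h1 h2
  have h : a = 10 ∨ a = 11 ∨ a = 12 ∨ a = 13 ∨ a = 14 ∨ a = 15 ∨ a = 16 ∨ a = 17 ∨ a = 18 := by
    omega
  rcases h with rfl | rfl | rfl | rfl | rfl | rfl | rfl | rfl | rfl
  · exact close_55_10
  · exact close_55_11
  · exact close_55_12
  · exact close_55_13
  · exact close_55_14
  · exact close_55_15
  · exact close_55_16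
  · exact close_55_17
  · exact close_55_18

/-- an end piece exists -/
noncomputable def hasE (k : ℕ) : Bool := Option.rec false (fun _ => true) (eT.get k)

/-- an open piece with at most 8 path labels exists -/
noncomputable def okO (k : ℕ) : Bool :=
  Option.rec false (fun D => Nat.ble (Nat.mod D 16) 8) (oT.get k)

theorem SG_of_hasE {l : List ℕ} (h : hasE (encL l) = true) (hl : l.length < 96) :
    SG (l : Multiset ℕ) := by
  cases hg : eT.get (encL l) with
  | none =>
    have h' : (Option.rec false (fun _ => true) (eT.get (encL l)) : Bool) = true := h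
    rw [hg] at h'
    exact absurd h' (by simp)
  | some D => exact SG_of_get hg hl

theorem Q_of_okO {l : List ℕ} (h : okO (encL l) = true) (hl : l.length < 96) :
    Q 8 (l : Multiset ℕ) := by
  have h' : (Option.rec false (fun D => Nat.ble (Nat.mod D 16) 8) (oT.get (encL l)) : Bool)
      = true := h
  cases hg : oT.get (encL l) with
  | none =>
    rw [hg] at h'
    exact absurd h' (by simp)
  | some D =>
    rw [hg] at h'
    exact ⟨D % 16, _, Nat.le_of_ble_eq_true h', OT_of_get hg hl⟩

/-- test of the special lists of the first kind -/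
noncomputable def spC (r : List ℕ) : Bool :=
  Option.rec false (fun D =>
    Bool.and ((List.range' 18 (D % 16 + 10 - 18)).all (fun l => hasE (encL (l :: r))))
      ((List.range' 18 (D % 16 + 7 - 18)).all (fun l => okO (encL (l :: r)))))
    (oT.get (encL r))

theorem specC_ok : specC.all spC = true := by decide +kernel

theorem specB1_ok : specB1.all (fun r => okO (encL r)) = true := by decide +kernel

theorem specB2_ok : specB2.all (fun r => okO (encL r)) = true := by decide +kernel

theorem spec_len : specL.all (fun r => Nat.blt r.length 64) = true := by decide +kernel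

theorem coe_add_singleton (r : List ℕ) (l : ℕ) :
    (r : Multiset ℕ) + {l} = ((l :: r : List ℕ) : Multiset ℕ) := by
  rw [← Multiset.cons_coe, ← Multiset.singleton_add, add_comm]

theorem LG_of_spC {r : List ℕ} (h : spC r = true) (hr : r.length < 64) :
    LG (r : Multiset ℕ) := by
  have h' : (Option.rec false (fun D =>
    Bool.and ((List.range' 18 (D % 16 + 10 - 18)).all (fun l => hasE (encL (l :: r))))
      ((List.range' 18 (D % 16 + 7 - 18)).all (fun l => okO (encL (l :: r)))))
    (oT.get (encL r)) : Bool) = true := h
  cases hg : oT.get (encL r) with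
  | none =>
    rw [hg] at h'
    exact absurd h' (by simp)
  | some D =>
    rw [hg] at h'
    have h2 : (((List.range' 18 (D % 16 + 10 - 18)).all (fun l => hasE (encL (l :: r)))) &&
      ((List.range' 18 (D % 16 + 7 - 18)).all (fun l => okO (encL (l :: r))))) = true := h'
    rw [Bool.and_eq_true, List.all_eq_true, List.all_eq_true] at h2
    have hO := OT_of_get hg (by omega : r.length < 96)
    refine LG_of_all moves closes_0 fun l hl => ⟨?_, ?_⟩
    · by_cases hb : D % 16 + 7 ≤ l
      · exact Q_step_of_le moves hO hb
      · rw [coe_add_singleton]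
        exact Q_of_okO (h2.2 l (by rw [List.mem_range'_1]; omega))
          (by rw [List.length_cons]; omega)
    · by_cases hb : D % 16 + 10 ≤ l
      · have := SG_of_OT moves closes_0 hO hb
        rwa [add_zero] at this
      · rw [coe_add_singleton]
        exact SG_of_hasE (h2.1 l (by rw [List.mem_range'_1]; omega))
          (by rw [List.length_cons]; omega)

/-- long cycles can be added to the special lists -/
theorem spec_LG : ∀ r ∈ specL, LG (r : Multiset ℕ) := by
  intro r hr
  have hlen : r.length < 64 := by
    have := List.all_eq_true.1 spec_len r hr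
    simpa using this
  unfold specL at hr
  rw [List.mem_append, List.mem_append] at hr
  rcases hr with hr | hr | hr
  · exact LG_of_spC (List.all_eq_true.1 specC_ok r hr) hlen
  · obtain ⟨s, hs, rfl⟩ := List.mem_map.1 hr
    rw [List.length_cons] at hlen
    have hQ : Q 8 (s : Multiset ℕ) := Q_of_okO (List.all_eq_true.1 specB1_ok s hs) (by omega)
    have := LG_of_Q5 moves closes_5 hQ
    have e : (s : Multiset ℕ) + (([5] : List ℕ) : Multiset ℕ) =
        ((5 :: s : List ℕ) : Multiset ℕ) := by
      rw [add_comm, Multiset.coe_add]; rfl
    rwa [e] at this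
  · obtain ⟨s, hs, rfl⟩ := List.mem_map.1 hr
    rw [List.length_cons, List.length_cons] at hlen
    have hQ : Q 8 (s : Multiset ℕ) := Q_of_okO (List.all_eq_true.1 specB2_ok s hs) (by omega)
    have := LG_of_Q5 moves closes_55 hQ
    have e : (s : Multiset ℕ) + (([5, 5] : List ℕ) : Multiset ℕ) =
        ((5 :: 5 :: s : List ℕ) : Multiset ℕ) := by
      rw [add_comm, Multiset.coe_add]; rfl
    rwa [e] at this

/-- long cycles can be added to every multiset which passes the test -/
theorem node_LG {r : List ℕ} (h : openB r = true) (hr : r.length < 64) :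
    LG (r : Multiset ℕ) := by
  have h' : (okO (encL r) || memN (encL r) specK) = true := h
  rw [Bool.or_eq_true] at h'
  rcases h' with h' | h'
  · exact LG_of_Q moves closes_0 (Q_of_okO h' (by omega))
  · have h1 := memN_spec h'
    rw [← specK_eq] at h1
    obtain ⟨s, hs, e⟩ := List.mem_map.1 h1
    have hlen : s.length < 64 := by
      have := List.all_eq_true.1 spec_len s hs
      simpa using this
    have hp : s.Perm r := encL_inj e (by omega) (by omega)
    rw [← Multiset.coe_eq_coe.2 hp]
    exact spec_LG s hs

end Pool.Agent.helper33.BE
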