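import Pool.Agent.helper33.BE.Trees

/-!
# The special lists and the test for long cycles (definitions)
-/

namespace Pool.Agent.helper33.BE

/-- membership in a list of numbers -/
noncomputable def memN (k : ℕ) (l : List ℕ) : Bool :=
  List.rec false (fun x _ ih => cond (Nat.beq k x) true ih) l

theorem memN_spec {k : ℕ} {l : List ℕ} (h : memN k l = true) : k ∈ l := by
  induction l with
  | nil => exact absurd h (by simp [memN])
  | cons x l ih =>
    have h' : cond (Nat.beq k x) true (memN k l) = true := h
    by_cases h1 : Nat.beq k x = true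
    · rw [Nat.eq_of_beq_eq_true h1]; exact List.mem_cons_self
    · rw [Bool.not_eq_true] at h1
      rw [h1, cond_false] at h'
      exact List.mem_cons_of_mem _ (ih h')

/-- special lists, first kind -/
def specC : List (List ℕ) :=
  [[],
   [3],
   [3, 3],
   [6],
   [4, 3],
   [5, 3],
   [4, 4],
   [6, 3],
   [5, 4],
   [4, 3, 3],
   [5, 5],
   [4, 4, 3],
   [8, 3],
   [6, 5],
   [4, 4, 4],
   [7, 5],
   [5, 5, 3],
   [10, 3],
   [4, 4, 3, 3],
   [7, 4, 3],
   [4, 4, 4, 3],
   [7, 5, 3],
   [7, 4, 4],
   [4, 4, 4, 3, 3],
   [7, 4, 4, 3],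
   [5, 5, 5, 3],
   [5, 5, 5, 5],
   [5, 5, 5, 5, 5, 4],
   [6, 5, 5, 5, 5, 5],
   [5, 5, 5, 5, 5, 5, 5],
   [5, 5, 5, 5, 5, 5, 5, 5],
   [5, 5, 5, 5, 5, 5, 5, 5, 3],
   [5, 5, 5, 5, 5, 5, 5, 5, 5, 5, 3]]

/-- special lists, second kind (without the cycle `5` of the closing) -/
def specB1 : List (List ℕ) :=
  [[5, 5, 5, 5, 3], [5, 5, 5, 5, 5], [5, 5, 5, 5, 3, 3], [8, 5, 5, 5, 3], [5, 5, 5, 5, 5, 5, 5, 5, 5, 5]]

/-- special lists, third kind (without the cycles `5, 5` of the closing) -/
def specB2 : List (List ℕ) :=
  [[5, 5, 5, 5, 3], [5, 5, 5, 5, 4], [5, 5, 5, 5, 5, 5, 5, 3]]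

/-- all special lists -/
def specL : List (List ℕ) :=
  specC ++ (specB1.map (fun r => 5 :: r) ++ specB2.map (fun r => 5 :: 5 :: r))

/-- the codes of the special lists -/
def specK : List ℕ :=
  [0,
   2097152,
   4194304,
   4398046511104,
   270532608,
   34361835520,
   536870912,
   4398048608256,
   34628173824,
   272629760,
   68719476736,
   538968064,
   72057594040025088,
   4432406249472,
   805306368,
   562984313159680,
   68721573888,
   1180591620717413400576,
   541065216,
   562950223953920,
   807403520,
   562984315256832,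
   562950490292224,
   809500672,
   562950492389376,
   103081312256,
   137438953472,
   172067127296,
   4569845202944,
   240518168576,
   274877906944,
   274880004096,
   343599480832,
   171800788992,
   206158430208,
   171802886144,
   72057731478978560,
   377957122048,
   206160527360,
   206426865664,
   309239742464]

theorem specK_eq : specL.map encL = specK := by decide +kernel

/-- `k` is the code of a multiset to which long cycles can be added -/
noncomputable def openK (k : ℕ) : Bool :=
  Bool.or (Option.rec false (fun D => Nat.ble (Nat.mod D 16) 8) (oT.get k)) (memN k specK)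

/-- the same for lists -/
noncomputable def openB (r : List ℕ) : Bool := openK (encL r)

end Pool.Agent.helper33.BE
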